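import Pool.Agent.KS6_17.KOT.Nuc

/-!
Approximately contractible Köthe algebras: a criterion, the Köthe algebras given by the powers of
one weight, and examples which are as far from nuclear as one likes.

The definitions (`KoetheSet`, `KSpace`, `Closed`, `ApproximatelyContractible`, `NuclearSpace`) are
those of the module `Pool.Graph.R_pool_sql_team_seeded_64922ed1.Results.MP_07c133_an.NotNuclear`:
a Köthe set is given as a sequence `p 0, p 1, ...` of functions `I → [0, ∞)`.
-/

set_option autoImplicit false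

namespace Pool.Agent.Results.MP_07c133_an.AnyRate

open Filter Topology Pool.Agent.Results.MP_07c133_an.NotNuclear Pool.Agent.KS6_17.KOT
open scoped NNReal

/-- **Main theorem.**

(1) Criterion. Let `A = λ(P)` be a Köthe algebra such that for all `p ∈ P`, all finite sets
`F ⊆ A` and all `ε > 0` there is a finite set `T` of indices with
`(1 + ∑_{i ∈ T} p_i) ∑_{i ∉ T} |a_i| p_i < ε` for all `a ∈ F`. Then `A` is approximately
contractible.

(2) Powers of one weight. Let `V ≥ 1` be a function on `I` with finite sublevel sets, and let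
`N(R)` be the number of the indices with `V ≤ R`. If there is an `s` with `N(R) ≤ R ^ s` for
arbitrarily large `R`, then `λ({V ^ k})` is an approximately contractible Köthe algebra.

(3) For every positive function `φ` on `(0, ∞)` there is a countable Köthe set
`P = {1 = p 0, p 1, p 2, ...}` with `p k * p l = p (k + l)` and `p k / p (k + 1) → 0` for
which `λ(P)` is an approximately contractible Köthe algebra, not nuclear, and
`∑_i φ (p k i / p m i) = ∞` for all `k ≤ m`. -/
theorem result.{u} :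
    (∀ (I : Type) (p : ℕ → I → ℝ≥0) (h : Closed p), KoetheSet p →
      (∀ (k : ℕ) (F : Finset (KSpace p)) (ε : ℝ), 0 < ε → ∃ T : Finset I, ∀ a ∈ F,
        (1 + ∑ i ∈ T, (p k i : ℝ)) * (∑' i : {i : I // i ∉ T}, ‖a.1 i.1‖ * (p k i.1 : ℝ)) < ε) →
      ApproximatelyContractible.{u} h) ∧
    (∀ (I : Type) (V : I → ℝ≥0), (∀ i, 1 ≤ V i) →
      ∀ (hfin : ∀ R : ℝ, {i | (V i : ℝ) ≤ R}.Finite) (s : ℕ),
        (∃ᶠ R : ℝ in atTop, ((hfin R).toFinset.card : ℝ) ≤ R ^ s) →
          KoetheSet (fun (k : ℕ) i => V i ^ k) ∧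
          ∃ h : Closed fun (k : ℕ) i => V i ^ k, ApproximatelyContractible.{u} h) ∧
    ∀ φ : ℝ → ℝ, (∀ t, 0 < t → 0 < φ t) →
      ∃ (I : Type) (p : ℕ → I → ℝ≥0) (h : Closed p), Countable I ∧ KoetheSet p ∧
        (∀ i, p 0 i = 1) ∧ (∀ k l i, p k i * p l i = p (k + l) i) ∧
        (∀ k, Tendsto (fun i => (p k i : ℝ) / p (k + 1) i) cofinite (𝓝 0)) ∧
        (∀ k m, k ≤ m → ¬ Summable fun i => φ ((p k i : ℝ) / p m i)) ∧
        ApproximatelyContractible.{u} h ∧ ¬ NuclearSpace (KSpace p) := by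
  classical
  refine ⟨fun I p h hP H => crit hP h fun k F ε hε => ?_, fun I V h1 hfin s hs => ?_,
    fun φ hφ => example_phi φ hφ⟩
  · obtain ⟨T, hT⟩ := H k F ε hε
    refine ⟨T, fun a ha => ?_⟩
    have e : (∑' i : {i : I // i ∉ T}, ‖a.1 i.1‖ * (p k i.1 : ℝ)) =
        ∑' i, if i ∈ T then 0 else ‖a.1 i‖ * (p k i : ℝ) := by
      rw [show (∑' i : {i : I // i ∉ T}, ‖a.1 i.1‖ * (p k i.1 : ℝ)) =
        ∑' i, Set.indicator {i : I | i ∉ T} (fun i => ‖a.1 i‖ * (p k i : ℝ)) i from
        tsum_subtype {i : I | i ∉ T} fun i => ‖a.1 i‖ * (p k i : ℝ)]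
      refine tsum_congr fun i => ?_
      by_cases hi : i ∈ T <;> simp [Set.indicator, hi]
    rw [← e]
    exact hT a ha
  · have hc : Closed fun (k : ℕ) i => V i ^ k := by
      intro a b k
      have hb : Summable fun i => ‖b.1 i‖ := by
        have := b.2 0
        simpa using this
      refine Summable.of_nonneg_of_le (fun i => by positivity) (fun i => ?_)
        ((a.2 k).mul_left (∑' i, ‖b.1 i‖))
      rw [norm_mul]
      have h1 : ‖b.1 i‖ ≤ ∑' i, ‖b.1 i‖ := hb.le_tsum i fun j _ => norm_nonneg _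
      have h2 : 0 ≤ ‖a.1 i‖ * (((V i ^ k : ℝ≥0)) : ℝ) := by positivity
      nlinarith
    exact ⟨⟨fun i => ⟨0, by simp⟩, fun k l => ⟨max k l, fun i => max_le
      (pow_le_pow_right₀ (h1 i) (le_max_left _ _)) (pow_le_pow_right₀ (h1 i) (le_max_right _ _))⟩⟩,
      hc, power V h1 hfin s hs hc⟩

end Pool.Agent.Results.MP_07c133_an.AnyRate
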